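import Pool.Agent.H4.TA.Targets

/-!
# CHB: the number of different points is concentrated
-/

set_option autoImplicit false

open Finset Pool.Agent.H43.TC Pool.Agent.H4.TA

namespace Pool.Agent.H52.TA

/-- the second moment of the deviation -/
theorem av_dev {k t : ℕ} (hk : 0 < k) (f : Wd k t → ℝ) (c E : ℝ) :
    av t (fun w => c * (f w - E) ^ 2) =
      c * (av t (fun w => f w ^ 2) - 2 * E * av t f + E ^ 2) := by
  have h1 : av t (fun w => (f w - E) ^ 2) =
      av t (fun w => f w ^ 2) - 2 * E * av t f + E ^ 2 := by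
    have h2 : av t (fun w => (f w - E) ^ 2) =
        av t (fun w => f w ^ 2 + ((-(2 * E)) * f w + E ^ 2)) := by
      congr 1
      funext w
      ring
    rw [h2, av_add (fun w => f w ^ 2) (fun w => (-(2 * E)) * f w + E ^ 2),
      av_add (fun w => (-(2 * E)) * f w) (fun _ => E ^ 2), av_mul, av_const hk]
    ring
  rw [av_mul, h1]

/-- CHB -/
theorem pf_CHB (hMOM : T_MOM) (hRNW : T_RNW) (hAVQ : T_AVQ) (hSL1 : T_SL1) (hSM2 : T_SM2)
    (hEIN : T_EIN) : T_CHB := by
  intro k d e hk hd he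
  have hk0 : 0 < k := by omega
  have hren := hRNW k hk
  obtain ⟨hpos, hslow⟩ := hSL1 k (pp k) (qq k) hren
  have hrng : ∀ t, rng k t = ∑ s ∈ range (t + 1), qq k s := by
    intro t
    unfold rng
    exact sum_congr rfl fun s _ => (hAVQ k s hk0).symm
  obtain ⟨t1, ht1⟩ := hSM2 (qq k) hren.qa hpos hslow (e * d ^ 2 / 4) (by positivity)
  obtain ⟨t2, ht2⟩ := hEIN k (pp k) (qq k) hren (2 / (e * d ^ 2))
  refine ⟨max t1 t2, fun t ht => ?_⟩
  have h1 := ht1 t ((le_max_left _ _).trans ht)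
  have h2 := ht2 t ((le_max_right _ _).trans ht)
  obtain ⟨hm1, hm2⟩ := hMOM k t hk0
  rw [← hrng] at h1 h2
  set E : ℝ := rng k t with hE
  have hE0 : 0 < E := lt_of_lt_of_le (by positivity) h2
  have hdE : 0 < d * E := by positivity
  have h3 : av t (fun w : Wd k t => ind ((R w : ℝ) ≤ (1 - d) * E)) ≤
      av t (fun w : Wd k t => 1 / (d * E) ^ 2 * ((R w : ℝ) - E) ^ 2) := by
    refine av_mono fun w => ?_
    by_cases hw : (R w : ℝ) ≤ (1 - d) * E
    · rw [ind_true hw, one_div_mul_eq_div, one_le_div (by positivity)]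
      have h4 : d * E ≤ E - R w := by
        have : (1 - d) * E = E - d * E := by ring
        linarith
      have h5 : (d * E) ^ 2 ≤ (E - R w) ^ 2 := pow_le_pow_left₀ hdE.le h4 2
      have h6 : (E - (R w : ℝ)) ^ 2 = ((R w : ℝ) - E) ^ 2 := by ring
      rwa [h6] at h5
    · rw [ind_false hw]
      positivity
  refine h3.trans ?_
  rw [av_dev hk0 (fun w : Wd k t => (R w : ℝ)), hm1, one_div_mul_eq_div,
    div_le_iff₀ (by positivity)]
  have h4 : 1 ≤ E * (e * d ^ 2) / 2 := by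
    rw [div_le_iff₀ (by positivity)] at h2
    linarith
  have h5 : E ≤ E * (E * (e * d ^ 2) / 2) := le_mul_of_one_le_right hE0.le h4
  have h6 : E * (E * (e * d ^ 2) / 2) = e * (d * E) ^ 2 / 2 := by ring
  have h7 : (1 / 2 + e * d ^ 2 / 4) * E ^ 2 = E ^ 2 / 2 + e * (d * E) ^ 2 / 4 := by ring
  have h8 : 2 * E * E = 2 * E ^ 2 := by ring
  rw [h7] at h1
  rw [h8]
  linarith

end Pool.Agent.H52.TA
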