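import Pool.Agent.H4.TA.Targets

/-!
# LIL: a limit for the lower bound
-/

set_option autoImplicit false

open Finset Pool.Agent.H43.TC Pool.Agent.H4.TA

namespace Pool.Agent.H52.TA

theorem exp_low {a : ℝ} (h0 : 0 ≤ a) (h1 : a ≤ 1 / 2) : Real.exp (-(a + a ^ 2)) ≤ 1 - a := by
  have h2 := Real.quadratic_le_exp_of_nonneg (x := a + a ^ 2) (by positivity)
  have h3 : 1 ≤ (1 - a) * Real.exp (a + a ^ 2) := by
    have h5 : 0 ≤ 1 - a - a ^ 2 - a ^ 3 := by
      have h6 : a ^ 2 ≤ 1 / 4 := by nlinarith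
      have h7 : a ^ 3 ≤ 1 / 8 := by nlinarith [mul_nonneg h0 (sq_nonneg a)]
      linarith
    have h4 : 1 ≤ (1 - a) * (1 + (a + a ^ 2) + (a + a ^ 2) ^ 2 / 2) := by
      nlinarith [mul_nonneg (sq_nonneg a) h5]
    exact h4.trans (mul_le_mul_of_nonneg_left h2 (by linarith))
  rw [Real.exp_neg, inv_le_iff_one_le_mul₀ (Real.exp_pos _)]
  exact h3

/-- LIL -/
theorem pf_LIL : T_LIL := by
  intro ε hε
  set η : ℝ := min (ε / 5) (1 / 8) with hη
  have hη0 : 0 < η := lt_min (by positivity) (by norm_num)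
  have hη1 : η ≤ ε / 5 := min_le_left _ _
  have hη2 : η ≤ 1 / 8 := min_le_right _ _
  set V : ℝ := max 1 (-Real.log ε) with hV
  have hV1 : 1 ≤ V := le_max_left _ _
  have hV2 : -Real.log ε ≤ V := le_max_right _ _
  refine ⟨⌈4 * V / η⌉₊, ⌈12 * V / η + ⌈4 * V / η⌉₊ / η⌉₊, η,
    Nat.ceil_pos.mpr (by positivity), hη0, ?_⟩
  set M : ℕ := ⌈4 * V / η⌉₊ with hM
  have hM1 : 4 * V / η ≤ M := Nat.le_ceil _
  have hM0 : 0 < M := Nat.ceil_pos.mpr (by positivity)
  have hM0' : (0 : ℝ) < M := by exact_mod_cast hM0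
  intro t h r a v hT hh hr ha hv hav
  have hT1 : 12 * V / η + M / η ≤ t := (Nat.le_ceil _).trans (by exact_mod_cast hT)
  clear_value M V η
  clear hM hV hη hT
  rcases lt_or_ge V v with hvV | hvV
  · have h1 : Real.exp (-v) ≤ ε := by
      rw [← Real.exp_log hε]
      exact Real.exp_le_exp.mpr (by linarith)
    have h2 : 0 ≤ max 0 (1 - a) ^ r := pow_nonneg (le_max_left _ _) _
    linarith
  -- the sizes
  have hh1 : t < 2 * M * h := by
    rw [hh]
    exact Nat.lt_mul_div_succ t (by omega)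
  have hh2 : 2 * M * (h - 1) ≤ t := by
    rw [hh, Nat.add_sub_cancel]
    exact Nat.mul_div_le t (2 * M)
  have hh0 : 1 ≤ h := by
    rw [hh]
    exact Nat.le_add_left 1 _
  have hr2 : 2 * h * (r - 1) ≤ t := by
    rw [hr, Nat.add_sub_cancel]
    exact Nat.mul_div_le t (2 * h)
  have hr0 : 1 ≤ r := by
    rw [hr]
    exact Nat.le_add_left 1 _
  have hh1' : (t : ℝ) + 1 ≤ M * (2 * h) := by
    have : t + 1 ≤ M * (2 * h) := by
      have h1 : M * (2 * h) = 2 * M * h := by ring
      omega
    exact_mod_cast this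
  have hh2' : (M : ℝ) * (2 * h) ≤ t + 2 * M := by
    have : M * (2 * h) ≤ t + 2 * M := by
      have h1 : M * (2 * h) = 2 * M * (h - 1) + 2 * M := by
        obtain ⟨g, hg⟩ := Nat.exists_eq_add_of_le hh0
        rw [hg, Nat.add_sub_cancel_left]
        ring
      omega
    exact_mod_cast this
  have hr2' : (2 * h : ℝ) * r ≤ t + 2 * h := by
    have : 2 * h * r ≤ t + 2 * h := by
      have h1 : 2 * h * r = 2 * h * (r - 1) + 2 * h := by
        obtain ⟨g, hg⟩ := Nat.exists_eq_add_of_le hr0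
        rw [hg, Nat.add_sub_cancel_left]
        ring
      omega
    exact_mod_cast this
  clear hh1 hh2 hr2
  set m : ℝ := 2 * h with hm
  have hm1 : 2 ≤ m := by
    have : (1 : ℝ) ≤ h := by exact_mod_cast hh0
    rw [hm]
    linarith
  clear_value m
  have ht0 : (0 : ℝ) ≤ t := Nat.cast_nonneg _
  have hT2 : 12 * V / η ≤ t := le_trans (by
    have : 0 ≤ (M : ℝ) / η := by positivity
    linarith) hT1
  have hT3 : (M : ℝ) / η ≤ t := le_trans (by
    have : 0 ≤ 12 * V / η := by positivity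
    linarith) hT1
  have hT4 : 12 * V ≤ η * t := by
    rw [div_le_iff₀ hη0] at hT2
    linarith
  have hT5 : (M : ℝ) ≤ η * t := by
    rw [div_le_iff₀ hη0] at hT3
    linarith
  have hM2 : 4 * V ≤ η * M := by
    rw [div_le_iff₀ hη0] at hM1
    linarith
  -- `m` is small against `t` and large
  have hηt0 : 0 ≤ η * t := by positivity
  have hηηt : η * (η * t) ≤ 1 / 8 * (η * t) := mul_le_mul_of_nonneg_right hη2 hηt0
  have hηM : η * M ≤ 1 / 8 * (η * t) := (mul_le_mul_of_nonneg_left hT5 hη0.le).trans hηηt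
  have hm4 : m * V ≤ 5 / 16 * (η * t) := by
    have h1 : m * (4 * V) ≤ m * (η * M) := mul_le_mul_of_nonneg_left hM2 (by linarith)
    have h2 : η * (M * m) ≤ η * (t + 2 * M) := mul_le_mul_of_nonneg_left hh2' hη0.le
    have h3 : m * (4 * V) = 4 * (m * V) := by ring
    have h4 : m * (η * M) = η * (M * m) := by ring
    have h5 : η * (t + 2 * M) = η * t + 2 * (η * M) := by ring
    linarith
  have hm5 : m ≤ m * V := le_mul_of_one_le_right (by linarith) hV1
  have hm3 : 1 ≤ η * m := by
    have h1 : (M : ℝ) * 1 ≤ M * (η * m) := by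
      have h2 : η * t ≤ η * (M * m) := mul_le_mul_of_nonneg_left (by linarith) hη0.le
      have h3 : M * (η * m) = η * (M * m) := by ring
      linarith
    exact le_of_mul_le_mul_left h1 hM0'
  -- the bound for `a`
  have ha1 : a ≤ η := by
    have h1 : a * (t + 1) ≤ η * (t + 1) := by
      refine hav.trans ?_
      have h3 : (m + 1) * v ≤ (m + 1) * V := mul_le_mul_of_nonneg_left hvV (by linarith)
      have h4 : 0 ≤ (m + 1) * V := mul_nonneg (by linarith) (by linarith)
      have h2 : (1 + η) * ((m + 1) * v) ≤ (1 + η) * ((m + 1) * V) :=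
        mul_le_mul_of_nonneg_left h3 (by linarith)
      have h5 : η * ((m + 1) * V) ≤ 1 / 8 * ((m + 1) * V) := mul_le_mul_of_nonneg_right hη2 h4
      have h6 : (1 + η) * ((m + 1) * V) = (m + 1) * V + η * ((m + 1) * V) := by ring
      have h7 : (m + 1) * V = m * V + V := by ring
      have h8 : η * ((t : ℝ) + 1) = η * t + η := by ring
      linarith
    exact le_of_mul_le_mul_right h1 (by linarith)
  -- the exponent
  have har : a * r ≤ (1 + η) ^ 3 * v := by
    have h1 : a * r * (m * (t + 1)) ≤ (1 + η) ^ 3 * v * (m * (t + 1)) := by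
      have h2 : a * r * (m * (t + 1)) = (a * (t + 1)) * (m * r) := by ring
      have h3 : (a * (t + 1)) * (m * r) ≤ ((1 + η) * ((m + 1) * v)) * (t + m) := by
        have h4 : 0 ≤ a * ((t : ℝ) + 1) := by positivity
        have h5 : 0 ≤ (r : ℝ) := Nat.cast_nonneg _
        exact mul_le_mul hav hr2' (by positivity) (h4.trans hav)
      have h4 : m + 1 ≤ (1 + η) * m := by
        have : (1 + η) * m = m + η * m := by ring
        linarith
      have h5 : t + m ≤ (1 + η) * (t + 1) := by
        have : (1 + η) * ((t : ℝ) + 1) = t + 1 + η * t + η := by ring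
        linarith
      have h6 : ((1 + η) * ((m + 1) * v)) * (t + m) ≤
          ((1 + η) * (((1 + η) * m) * v)) * ((1 + η) * (t + 1)) := by
        have h7 : (1 + η) * ((m + 1) * v) ≤ (1 + η) * (((1 + η) * m) * v) :=
          mul_le_mul_of_nonneg_left (mul_le_mul_of_nonneg_right h4 hv) (by linarith)
        refine mul_le_mul h7 h5 (by linarith) (by positivity)
      rw [h2]
      refine h3.trans (h6.trans (le_of_eq ?_))
      ring
    exact le_of_mul_le_mul_right h1 (by positivity)
  have hexp : (a + a ^ 2) * r ≤ v + 5 * η * v := by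
    have h1 : (a + a ^ 2) * r = (1 + a) * (a * r) := by ring
    have h2 : 0 ≤ (1 + η) ^ 3 * v := by positivity
    have h3 : (1 + a) * (a * r) ≤ (1 + η) * ((1 + η) ^ 3 * v) :=
      mul_le_mul (by linarith) har (by positivity) (by positivity)
    have h4 : (1 + η) ^ 4 ≤ 1 + 5 * η := by
      have h5 : η * η ≤ 1 / 8 * η := mul_le_mul_of_nonneg_right hη2 hη0.le
      have h6 : η * (η * η) ≤ 1 / 8 * (η * η) :=
        mul_le_mul_of_nonneg_right hη2 (by positivity)
      have h7 : η * (η * (η * η)) ≤ 1 / 8 * (η * (η * η)) :=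
        mul_le_mul_of_nonneg_right hη2 (by positivity)
      have h8 : (1 + η) ^ 4 = 1 + 4 * η + 6 * (η * η) + 4 * (η * (η * η)) +
          η * (η * (η * η)) := by ring
      linarith
    rw [h1]
    refine h3.trans ?_
    have h5 : (1 + η) * ((1 + η) ^ 3 * v) = (1 + η) ^ 4 * v := by ring
    rw [h5]
    have h6 := mul_le_mul_of_nonneg_right h4 hv
    have h7 : (1 + 5 * η) * v = v + 5 * η * v := by ring
    linarith
  have hmain : Real.exp (-(v + 5 * η * v)) ≤ (1 - a) ^ r := by
    refine le_trans (Real.exp_le_exp.mpr (neg_le_neg hexp)) ?_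
    have h1 : -((a + a ^ 2) * r) = (r : ℝ) * (-(a + a ^ 2)) := by ring
    rw [h1, Real.exp_nat_mul]
    exact pow_le_pow_left₀ (Real.exp_pos _).le (exp_low ha (by linarith)) r
  have hv1 : v * Real.exp (-v) ≤ 1 := by
    rw [Real.exp_neg, ← div_eq_mul_inv, div_le_one (Real.exp_pos _)]
    linarith [Real.add_one_le_exp v]
  have hfin : Real.exp (-v) - ε ≤ Real.exp (-(v + 5 * η * v)) := by
    have h1 : Real.exp (-(v + 5 * η * v)) = Real.exp (-v) * Real.exp (-(5 * η * v)) := by
      rw [← Real.exp_add]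
      congr 1
      ring
    have h2 : 1 - 5 * η * v ≤ Real.exp (-(5 * η * v)) := by
      linarith [Real.add_one_le_exp (-(5 * η * v))]
    rw [h1]
    have h3 := mul_le_mul_of_nonneg_left h2 (Real.exp_pos (-v)).le
    have h4 : 5 * η * (v * Real.exp (-v)) ≤ 5 * η * 1 :=
      mul_le_mul_of_nonneg_left hv1 (by positivity)
    have h5 : Real.exp (-v) * (1 - 5 * η * v) =
        Real.exp (-v) - 5 * η * (v * Real.exp (-v)) := by ring
    linarith
  refine hfin.trans (hmain.trans ?_)
  exact pow_le_pow_left₀ (by linarith) (le_max_right _ _) r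

end Pool.Agent.H52.TA
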